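import Mathlib

set_option autoImplicit false

open Filter Topology Set

namespace Pool.Agent.H84R4

/-- agreement of two sets of integers below `n` -/
def Agree (n : ℕ) (S T : Set ℕ) : Prop := ∀ q < n, (q ∈ S ↔ q ∈ T)

lemma Agree.refl (n : ℕ) (S : Set ℕ) : Agree n S S := fun _ _ => Iff.rfl

lemma Agree.symm {n : ℕ} {S T : Set ℕ} (h : Agree n S T) : Agree n T S :=
  fun q hq => (h q hq).symm

lemma Agree.trans {n : ℕ} {S T U : Set ℕ} (h : Agree n S T) (h' : Agree n T U) : Agree n S U :=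
  fun q hq => (h q hq).trans (h' q hq)

lemma Agree.mono {m n : ℕ} {S T : Set ℕ} (h : Agree n S T) (hm : m ≤ n) : Agree m S T :=
  fun q hq => h q (lt_of_lt_of_le hq hm)

/-- combinatorial closedness -/
def Cl (E : Set (Set ℕ)) : Prop := ∀ S, S ∉ E → ∃ l, ∀ S', Agree l S' S → S' ∉ E

/-- sets agreeing with `b` below `k` and contained in `U` above -/
def cone (b : Set ℕ) (k : ℕ) (U : Set ℕ) : Set (Set ℕ) :=
  {T | Agree k T b ∧ ∀ q ∈ T, k ≤ q → q ∈ U}

lemma cone_mono {b b' : Set ℕ} {k k' : ℕ} {U U' : Set ℕ} (hk : k ≤ k') (hb : b' ∈ cone b k U)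
    (hU : U' ⊆ U) : cone b' k' U' ⊆ cone b k U := by
  rintro T ⟨h1, h2⟩
  refine ⟨(h1.mono hk).trans hb.1, fun q hq hkq => ?_⟩
  by_cases hq' : q < k'
  · exact hb.2 q ((h1 q hq').mp hq) hkq
  · exact hU (h2 q hq (not_lt.mp hq'))

/-- truncation -/
def cut (b : Set ℕ) (k : ℕ) : Set ℕ := {q | q ∈ b ∧ q < k}

lemma agree_cut (b : Set ℕ) (k : ℕ) : Agree k (cut b k) b := fun q hq => by
  simp [cut, hq]

lemma cut_mem_cone {b b' : Set ℕ} {k k' : ℕ} {U : Set ℕ} (hk : k ≤ k') (hb : b' ∈ cone b k U) :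
    cut b' k' ∈ cone b k U :=
  ⟨((agree_cut b' k').mono hk).trans hb.1, fun q hq hkq => hb.2 q hq.1 hkq⟩

lemma cut_mem_cone_self {b : Set ℕ} {k : ℕ} {U : Set ℕ} : cut b k ∈ cone b k U :=
  ⟨agree_cut b k, fun q hq hkq => absurd hq.2 (not_lt.mpr hkq)⟩

/-- generic sequences for countably many dense sets -/
lemma generic {P : Type*} (le : P → P → Prop) (hr : ∀ p, le p p)
    (ht : ∀ p q r, le p q → le q r → le p r) {ι : Type*} [Countable ι] [Nonempty ι]
    (D : ι → Set P) (hD : ∀ d p, ∃ p', le p' p ∧ p' ∈ D d) (p0 : P) :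
    ∃ s : ℕ → P, s 0 = p0 ∧ (∀ r r', r ≤ r' → le (s r') (s r)) ∧
      ∀ d N, ∃ r ≥ N, s r ∈ D d := by
  obtain ⟨e, he⟩ := exists_surjective_nat ι
  choose f hf1 hf2 using hD
  let s : ℕ → P := fun n => Nat.rec p0 (fun n p => f (e (Nat.unpair n).1) p) n
  have hs : ∀ n, s (n + 1) = f (e (Nat.unpair n).1) (s n) := fun n => rfl
  refine ⟨s, rfl, ?_, ?_⟩
  · intro r r' hrr
    induction r', hrr using Nat.le_induction with
    | base => exact hr _
    | succ n hn ih =>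
      rw [hs]
      exact ht _ _ _ (hf1 _ _) ih
  · intro d N
    obtain ⟨a, rfl⟩ := he d
    refine ⟨Nat.pair a N + 1, (Nat.right_le_pair a N).trans (Nat.le_succ _), ?_⟩
    rw [hs, Nat.unpair_pair]
    exact hf2 _ _

lemma exists_lim (b : ℕ → Set ℕ) (k : ℕ → ℕ) (U : ℕ → Set ℕ)
    (h : ∀ r r', r ≤ r' → k r ≤ k r' ∧ b r' ∈ cone (b r) (k r) (U r))
    (hk : ∀ N, ∃ r, N ≤ k r) : ∃ T, ∀ r, T ∈ cone (b r) (k r) (U r) := by
  refine ⟨{q | ∃ r, q < k r ∧ q ∈ b r}, fun r => ⟨?_, ?_⟩⟩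
  · intro q hq
    constructor
    · rintro ⟨r', hq', hb⟩
      rcases le_total r r' with hrr | hrr
      · exact ((h r r' hrr).2.1 q hq).mp hb
      · exact ((h r' r hrr).2.1 q hq').mpr hb
    · intro hb
      exact ⟨r, hq, hb⟩
  · rintro q ⟨r', hq', hb⟩ hkq
    have : r ≤ r' := by
      by_contra hcon
      have := (h r' r (not_le.mp hcon).le).1
      omega
    exact (h r r' this).2.2 q hb hkq

/-- the hypothesis on the ideal: its complement is a countable union of `Π⁰₃` sets -/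
def Repr (I : Set (Set ℕ)) (C : ℕ → ℕ → ℕ → Set (Set ℕ)) : Prop :=
  (∀ m i j, Cl (C m i j)) ∧ ∀ S, S ∉ I ↔ ∃ m, ∀ i, ∃ j, S ∈ C m i j

/-- a condition of the Prikry-like forcing attached to a decreasing sequence `U` -/
structure Cnd where
  b : Set ℕ
  k : ℕ
  s : ℕ

/-- the order -/
def Cnd.le (U : ℕ → Set ℕ) (p' p : Cnd) : Prop :=
  p.k ≤ p'.k ∧ p.s ≤ p'.s ∧ p'.b ∈ cone p.b p.k (U p.s)

/-- Let `M` be countable.  If for every `m` the sets `⋂ i ⋃ j C m i j` are meagre in the forcing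
sense on the good conditions, some `T` converging along `U` avoids all of them. -/
lemma avoid (U : ℕ → Set ℕ) (hU : Antitone U) (A : Set ℕ) (hA : ∀ s, (A \ U s).Finite)
    {M : Type} [Countable M] [Nonempty M] (C : M → ℕ → ℕ → Set (Set ℕ))
    (hC : ∀ m i j, Cl (C m i j))
    (hN : ∀ m b k s, (∀ q ∈ A, k ≤ q → q ∈ U s) → ∃ i b' k' s', k ≤ k' ∧ s ≤ s' ∧
      b' ∈ cone b k (U s) ∧ (∀ q ∈ A, k' ≤ q → q ∈ U s') ∧
      ∀ j b'' k'' s'', k' ≤ k'' → s' ≤ s'' → b'' ∈ cone b' k' (U s') →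
        ¬ cone b'' k'' (U s'') ⊆ C m i j) :
    ∃ T : Set ℕ, ∀ m, ∃ i, ∀ j, T ∉ C m i j := by
  -- we only use conditions whose stem is bounded
  let P' := {p : Cnd // (∀ q ∈ A, p.k ≤ q → q ∈ U p.s) ∧ ∀ q ∈ p.b, q < p.k}
  let le' : P' → P' → Prop := fun p' p => Cnd.le U p'.1 p.1
  have hrefl : ∀ p : P', le' p p := fun p =>
    ⟨le_rfl, le_rfl, Agree.refl _ _, fun q hq hkq => absurd (p.2.2 q hq) (not_lt.mpr hkq)⟩
  have htrans : ∀ p q r : P', le' p q → le' q r → le' p r := by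
    rintro p q r ⟨h1, h2, h3⟩ ⟨h4, h5, h6⟩
    exact ⟨h4.trans h1, h5.trans h2, cone_mono h4 h6 (hU h5) h3⟩
  let NoC : Set (Set ℕ) → P' → Prop := fun E p => ∀ b'' k'' s'', p.1.k ≤ k'' → p.1.s ≤ s'' →
    b'' ∈ cone p.1.b p.1.k (U p.1.s) → ¬ cone b'' k'' (U s'') ⊆ E
  have hNoC : ∀ E (p p' : P'), le' p' p → NoC E p → NoC E p' := by
    rintro E p p' ⟨h1, h2, h3⟩ hno b'' k'' s'' h4 h5 h6
    exact hno b'' k'' s'' (h1.trans h4) (h2.trans h5) (cone_mono h1 h3 (hU h2) h6)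
  let D : (M ⊕ (M × ℕ × ℕ)) ⊕ ℕ → Set P' := fun d =>
    match d with
    | Sum.inl (Sum.inl m) => {p | ∃ i, ∀ j, NoC (C m i j) p}
    | Sum.inl (Sum.inr (m, i, j)) => {p | NoC (C m i j) p → ∀ T, Agree p.1.k T p.1.b → T ∉ C m i j}
    | Sum.inr n => {p | n ≤ p.1.k}
  have hD : ∀ d p, ∃ p', le' p' p ∧ p' ∈ D d := by
    rintro ((m | ⟨m, i, j⟩) | n) p
    · obtain ⟨i, b', k', s', h1, h2, h3, h4, h5⟩ := hN m p.1.b p.1.k p.1.s p.2.1
      refine ⟨⟨⟨cut b' k', k', s'⟩, h4, fun q hq => hq.2⟩, ⟨h1, h2, cut_mem_cone h1 h3⟩, i, ?_⟩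
      intro j b'' k'' s'' h6 h7 h8
      refine h5 j b'' k'' s'' h6 h7 ?_
      exact ⟨h8.1.trans (agree_cut b' k'), h8.2⟩
    · by_cases hno : NoC (C m i j) p
      · have h1 := hno p.1.b p.1.k p.1.s le_rfl le_rfl (hrefl p).2.2
        rw [not_subset] at h1
        obtain ⟨T, hT1, hT2⟩ := h1
        obtain ⟨l, hl⟩ := hC m i j T hT2
        refine ⟨⟨⟨cut T (max l p.1.k), max l p.1.k, p.1.s⟩,
          fun q hq hkq => p.2.1 q hq ((le_max_right _ _).trans hkq), fun q hq => hq.2⟩,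
          ⟨le_max_right _ _, le_rfl, cut_mem_cone (le_max_right _ _) hT1⟩, ?_⟩
        intro _ T' hT'
        exact hl T' ((hT'.trans (agree_cut T _)).mono (le_max_left _ _))
      · exact ⟨p, hrefl p, fun h => absurd h hno⟩
    · refine ⟨⟨⟨p.1.b, max n p.1.k, p.1.s⟩,
          fun q hq hkq => p.2.1 q hq ((le_max_right _ _).trans hkq),
          fun q hq => (p.2.2 q hq).trans_le (le_max_right _ _)⟩,
          ⟨le_max_right _ _, le_rfl, (hrefl p).2.2⟩, ?_⟩
      exact le_max_left n p.1.k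
  -- initial condition
  obtain ⟨k0, hk0⟩ : ∃ k0, ∀ q ∈ A, k0 ≤ q → q ∈ U 0 := by
    obtain ⟨k0, hk0⟩ := (hA 0).bddAbove
    refine ⟨k0 + 1, fun q hq hkq => ?_⟩
    by_contra hcon
    have := hk0 ⟨hq, hcon⟩
    omega
  obtain ⟨s, hs0, hs1, hs2⟩ := generic le' hrefl htrans D hD
    ⟨⟨∅, k0, 0⟩, hk0, fun q hq => absurd hq (notMem_empty q)⟩
  obtain ⟨T, hT⟩ := exists_lim (fun r => (s r).1.b) (fun r => (s r).1.k) (fun r => U (s r).1.s)
    (fun r r' hrr => ⟨(hs1 r r' hrr).1, (hs1 r r' hrr).2.2⟩)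
    (fun N => by
      obtain ⟨r, _, hr⟩ := hs2 (Sum.inr N) 0
      exact ⟨r, hr⟩)
  refine ⟨T, fun m => ?_⟩
  obtain ⟨r, _, i, hi⟩ := hs2 (Sum.inl (Sum.inl m)) 0
  refine ⟨i, fun j => ?_⟩
  obtain ⟨r', hr', hE⟩ := hs2 (Sum.inl (Sum.inr (m, i, j))) r
  exact hE (hNoC _ _ _ (hs1 r r' hr') (hi j)) T (hT r').1

/-- A positive set converging along `U` gives a cone in which one of the `Π⁰₃` pieces of the
complement of the ideal is comeagre. -/
lemma positive_cone (I : Set (Set ℕ)) (C : ℕ → ℕ → ℕ → Set (Set ℕ)) (hI : Repr I C)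
    (hdown : ∀ A ∈ I, ∀ B ⊆ A, B ∈ I) (hun : ∀ A ∈ I, ∀ B ∈ I, A ∪ B ∈ I)
    (U : ℕ → Set ℕ) (hU : Antitone U) (A : Set ℕ) (hA : ∀ s, (A \ U s).Finite) (hAI : A ∉ I) :
    ∃ m b k s, ∀ i b' k' s', k ≤ k' → s ≤ s' → b' ∈ cone b k (U s) →
      ∃ b'' k'' s'' j, k' ≤ k'' ∧ s' ≤ s'' ∧ b'' ∈ cone b' k' (U s') ∧
        cone b'' k'' (U s'') ⊆ C m i j := by
  by_contra hcon
  push Not at hcon
  have hgood : ∀ s k, ∃ k' ≥ k, ∀ q ∈ A, k' ≤ q → q ∈ U s := by
    intro s k
    obtain ⟨k0, hk0⟩ := (hA s).bddAbove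
    refine ⟨max k (k0 + 1), le_max_left _ _, fun q hq hkq => ?_⟩
    by_contra hcon
    have := hk0 ⟨hq, hcon⟩
    have := le_max_right k (k0 + 1)
    omega
  have hex : ∃ T : Set ℕ, ∀ fm : Bool × ℕ, ∃ i, ∀ j,
      T ∉ {T | (if fm.1 then symmDiff A T else T) ∈ C fm.2 i j} := by
    refine avoid U hU A hA (M := Bool × ℕ)
      (fun fm i j => {T | (if fm.1 then symmDiff A T else T) ∈ C fm.2 i j}) ?_ ?_
    · rintro ⟨f, m⟩ i j S hS
      cases f
      · exact hI.1 m i j S hS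
      · obtain ⟨l, hl⟩ := hI.1 m i j _ hS
        refine ⟨l, fun S' hS' => hl _ ?_⟩
        intro q hq
        have := hS' q hq
        simp only [if_true, mem_symmDiff]
        tauto
    · rintro ⟨f, m⟩ b k s hg
      cases f
      · obtain ⟨i, b', k', s', h1, h2, h3, h4⟩ := hcon m b k s
        obtain ⟨k1, hk1, hg1⟩ := hgood s' k'
        refine ⟨i, cut b' k', k1, s', h1.trans hk1, h2, cut_mem_cone h1 h3, hg1, ?_⟩
        intro j b'' k'' s'' h5 h6 h7
        exact h4 b'' k'' s'' j (hk1.trans h5) h6 (cone_mono hk1 cut_mem_cone_self subset_rfl h7)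
      · obtain ⟨i, b', k', s', h1, h2, h3, h4⟩ := hcon m (symmDiff A b) k s
        obtain ⟨k1, hk1, hg1⟩ := hgood s' k'
        refine ⟨i, symmDiff A (cut b' k'), k1, s', h1.trans hk1, h2, ⟨?_, ?_⟩, hg1, ?_⟩
        · intro q hq
          have h5 := h3.1 q hq
          have h6 : q < k' := by omega
          simp only [mem_symmDiff, cut, mem_ofPred_eq] at h5 ⊢
          tauto
        · intro q hq hkq
          rcases mem_symmDiff.mp hq with h | h
          · exact hg q h.1 hkq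
          · exact h3.2 q h.1.1 hkq
        · intro j b'' k'' s'' h5 h6 h7 hsub
          obtain ⟨k3, hk3, hg3⟩ := hgood s'' k''
          refine h4 (symmDiff A (cut b'' k'')) k3 s'' j (by omega) h6 ⟨?_, ?_⟩ ?_
          · intro q hq
            have h8 := h7.1 q (by omega)
            have h9 : q < k'' := by omega
            simp only [mem_symmDiff, cut, mem_ofPred_eq] at h8 ⊢
            tauto
          · intro q hq hkq
            by_cases hq1 : q < k1
            · have h8 := h7.1 q hq1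
              have h9 : q < k'' := by omega
              have h10 : ¬ q < k' := by omega
              simp only [mem_symmDiff, cut, mem_ofPred_eq] at h8 hq
              tauto
            · rcases mem_symmDiff.mp hq with h | h
              · exact hg1 q h.1 (not_lt.mp hq1)
              · exact h7.2 q h.1.1 (not_lt.mp hq1)
          · intro T hT
            have h8 : symmDiff A T ∈ cone b'' k'' (U s'') := by
              refine ⟨?_, ?_⟩
              · intro q hq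
                have h9 := hT.1 q (by omega)
                simp only [mem_symmDiff, cut, mem_ofPred_eq] at h9 ⊢
                tauto
              · intro q hq hkq
                by_cases hq3 : q < k3
                · have h9 := hT.1 q hq3
                  have h10 : ¬ q < k'' := by omega
                  simp only [mem_symmDiff, cut, mem_ofPred_eq] at h9 hq
                  tauto
                · rcases mem_symmDiff.mp hq with h | h
                  · exact hg3 q h.1 (not_lt.mp hq3)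
                  · exact hT.2 q h.1 (not_lt.mp hq3)
            have h9 := hsub h8
            simp only [if_true, mem_ofPred_eq, symmDiff_symmDiff_cancel_left] at h9
            exact h9
  obtain ⟨T, hT⟩ := hex
  have hT1 : T ∈ I := by
    by_contra h
    obtain ⟨m, hm⟩ := (hI.2 T).mp h
    obtain ⟨i, hi⟩ := hT (false, m)
    obtain ⟨j, hj⟩ := hm i
    exact hi j hj
  have hT2 : symmDiff A T ∈ I := by
    by_contra h
    obtain ⟨m, hm⟩ := (hI.2 _).mp h
    obtain ⟨i, hi⟩ := hT (true, m)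
    obtain ⟨j, hj⟩ := hm i
    exact hi j hj
  apply hAI
  refine hdown _ (hun _ hT1 _ hT2) _ ?_
  intro q hq
  by_cases h : q ∈ T
  · exact Or.inl h
  · exact Or.inr (mem_symmDiff.mpr (Or.inl ⟨hq, h⟩))

end Pool.Agent.H84R4
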