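import Mathlib
import Pool.Agent.H84R4.Cone

set_option autoImplicit false

open Filter Topology Set

namespace Pool.Agent.H84R4

/-- Jalali-Naini and Talagrand inside a positive set. -/
lemma pieces (I : Set (Set ℕ)) (C : ℕ → ℕ → ℕ → Set (Set ℕ)) (hI : Repr I C)
    (hdown : ∀ A ∈ I, ∀ B ⊆ A, B ∈ I) (hun : ∀ A ∈ I, ∀ B ∈ I, A ∪ B ∈ I)
    (hfin : ∀ A : Set ℕ, A.Finite → A ∈ I) (A : Set ℕ) (hAI : A ∉ I) :
    ∃ P : ℕ → Set ℕ, (∀ l, (P l).Finite ∧ P l ⊆ A) ∧ (∀ l l' q, q ∈ P l → q ∈ P l' → l = l') ∧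
      ∀ L : Set ℕ, L.Infinite → (⋃ l ∈ L, P l) ∉ I := by
  obtain ⟨m, b, k, s, hm⟩ := positive_cone I C hI hdown hun (fun _ => A) (fun _ _ _ => le_rfl) A
    (fun _ => by simp) hAI
  have hm' : ∀ i b' k', k ≤ k' → b' ∈ cone b k A → ∃ b'' k'' j, k' ≤ k'' ∧
      b'' ∈ cone b' k' A ∧ cone b'' k'' A ⊆ C m i j := by
    intro i b' k' h1 h2
    obtain ⟨b'', k'', s'', j, h3, -, h4, h5⟩ := hm i b' k' s h1 le_rfl h2
    exact ⟨b'', k'', j, h3, h4, h5⟩
  -- finite handling
  have hF : ∀ l, k ≤ l → ∀ F : Set (Set ℕ × ℕ), F.Finite →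
      (∀ ci ∈ F, (∀ q ∈ ci.1, q < l) ∧ ci.1 ∈ cone b k A) →
      ∃ (P : Set ℕ) (n' : ℕ), l ≤ n' ∧ (∀ q ∈ P, q ∈ A ∧ l ≤ q ∧ q < n') ∧
        ∀ ci ∈ F, ∃ j, cone (ci.1 ∪ P) n' A ⊆ C m ci.2 j := by
    intro l hl F hF
    induction F, hF using Set.Finite.induction_on with
    | empty =>
      intro _
      exact ⟨∅, l, le_rfl, fun q hq => absurd hq (notMem_empty q),
        fun ci hci => absurd hci (notMem_empty ci)⟩
    | @insert ci F hci hF ih =>
      intro h
      obtain ⟨P, n', h1, h2, h3⟩ := ih fun c hc => h c (mem_insert_of_mem _ hc)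
      obtain ⟨hc1, hc2⟩ := h ci (mem_insert _ _)
      obtain ⟨b'', k'', j, h4, h5, h6⟩ := hm' ci.2 (ci.1 ∪ P) n' (hl.trans h1) ⟨fun q hq => by
          rw [← hc2.1 q hq]
          constructor
          · rintro (h | h)
            · exact h
            · exact absurd (h2 q h).2.1 (by omega)
          · intro h; exact Or.inl h, fun q hq hkq => by
          rcases hq with h | h
          · exact hc2.2 q h hkq
          · exact (h2 q h).1⟩
      have hP' : ∀ q, q < n' → ((q ∈ b'' ∧ l ≤ q ∧ q < k'') ↔ q ∈ P) := by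
        intro q hq
        rw [h5.1 q hq]
        constructor
        · rintro ⟨h7 | h7, h8, _⟩
          · exact absurd (hc1 q h7) (not_lt.mpr h8)
          · exact h7
        · intro h7
          exact ⟨Or.inr h7, (h2 q h7).2.1, by omega⟩
      have hP'A : ∀ q, (q ∈ b'' ∧ l ≤ q ∧ q < k'') → q ∈ A := by
        intro q hq
        by_cases hqn : q < n'
        · exact (h2 q ((hP' q hqn).mp hq)).1
        · exact h5.2 q hq.1 (not_lt.mp hqn)
      refine ⟨{q | q ∈ b'' ∧ l ≤ q ∧ q < k''}, k'', h1.trans h4,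
        fun q hq => ⟨hP'A q hq, hq.2.1, hq.2.2⟩, ?_⟩
      intro c hc
      rcases mem_insert_iff.mp hc with rfl | hc
      · refine ⟨j, fun T hT => h6 ⟨?_, hT.2⟩⟩
        intro q hq
        rw [hT.1 q hq]
        by_cases hql : q < l
        · have h7 := h5.1 q (by omega)
          rw [h7]
          constructor
          · rintro (h8 | h8)
            · exact Or.inl h8
            · exact absurd h8.2.1 (by omega)
          · rintro (h8 | h8)
            · exact Or.inl h8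
            · exact absurd (h2 q h8).2.1 (by omega)
        · constructor
          · rintro (h8 | h8)
            · exact absurd (hc1 q h8) hql
            · exact h8.1
          · intro h8
            exact Or.inr ⟨h8, by omega, hq⟩
      · obtain ⟨j', hj'⟩ := h3 c hc
        refine ⟨j', fun T hT => hj' ?_⟩
        refine cone_mono h4 ⟨?_, ?_⟩ subset_rfl hT
        · intro q hq
          constructor
          · rintro (h8 | h8)
            · exact Or.inl h8
            · exact Or.inr ((hP' q hq).mp h8)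
          · rintro (h8 | h8)
            · exact Or.inl h8
            · exact Or.inr ((hP' q hq).mpr h8)
        · intro q hq hkq
          rcases hq with h8 | h8
          · exact absurd ((h c (mem_insert_of_mem _ hc)).1 q h8) (by omega)
          · exact hP'A q h8
  -- one step
  have hstep : ∀ (l : {l // k ≤ l}) (i0 : ℕ), ∃ (P : Set ℕ) (n' : {l // k ≤ l}), l.1 ≤ n'.1 ∧
      (∀ q ∈ P, q ∈ A ∧ l.1 ≤ q ∧ q < n'.1) ∧
      ∀ c : Set ℕ, (∀ q ∈ c, q < l.1) → c ∈ cone b k A → ∀ i ≤ i0,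
        ∃ j, cone (c ∪ P) n'.1 A ⊆ C m i j := by
    rintro ⟨l, hl⟩ i0
    have hfin2 : ({c : Set ℕ | c ⊆ Iio l} ×ˢ Iic i0).Finite :=
      (finite_Iio l).finite_subsets.prod (finite_Iic i0)
    obtain ⟨P, n', h1, h2, h3⟩ := hF l hl
      {ci | ci ∈ ({c : Set ℕ | c ⊆ Iio l} ×ˢ Iic i0 : Set (Set ℕ × ℕ)) ∧ ci.1 ∈ cone b k A}
      (hfin2.subset fun ci hci => hci.1) (fun ci hci => ⟨fun q hq => hci.1.1 hq, hci.2⟩)
    exact ⟨P, ⟨n', hl.trans h1⟩, h1, h2, fun c hc1 hc2 i hi => h3 (c, i) ⟨⟨fun q hq => hc1 q hq, hi⟩, hc2⟩⟩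
  choose f g hfg1 hfg2 hfg3 using hstep
  let n : ℕ → {l // k ≤ l} := fun a => Nat.rec ⟨k, le_rfl⟩ (fun a l => g l a) a
  have hn : ∀ a, n (a + 1) = g (n a) a := fun a => rfl
  have hn_mono : ∀ a a', a ≤ a' → (n a).1 ≤ (n a').1 := by
    intro a a' h
    induction a', h using Nat.le_induction with
    | base => exact le_rfl
    | succ c hc ih => rw [hn]; exact ih.trans (hfg1 _ _)
  have hP : ∀ a, ∀ q ∈ f (n a) a, q ∈ A ∧ (n a).1 ≤ q ∧ q < (n (a+1)).1 := by
    intro a q hq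
    rw [hn]
    exact hfg2 _ _ q hq
  have hdisj : ∀ l l' q, q ∈ f (n l) l → q ∈ f (n l') l' → l = l' := by
    intro l l' q h1 h2
    have h3 := hP l q h1
    have h4 := hP l' q h2
    rcases lt_trichotomy l l' with h | h | h
    · have := hn_mono (l+1) l' h
      omega
    · exact h
    · have := hn_mono (l'+1) l h
      omega
  refine ⟨fun a => f (n a) a, fun l => ⟨(finite_Iio (n (l+1)).1).subset fun q hq => (hP l q hq).2.2,
    fun q hq => (hP l q hq).1⟩, hdisj, ?_⟩
  intro L hL hS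
  have hcutfin : cut b k ∈ I := hfin _ ((finite_Iio k).subset fun q hq => hq.2)
  have hS' := hun _ hcutfin _ hS
  refine (hI.2 (cut b k ∪ ⋃ l ∈ L, f (n l) l)).mpr ⟨m, fun i => ?_⟩ hS'
  obtain ⟨l, hlL, hil⟩ := hL.exists_gt i
  have hSA : ∀ q, q ∈ (⋃ l ∈ L, f (n l) l) → q ∈ A ∧ k ≤ q := by
    intro q hq
    simp only [mem_iUnion] at hq
    obtain ⟨l', _, hq⟩ := hq
    exact ⟨(hP l' q hq).1, (n l').2.trans (hP l' q hq).2.1⟩
  have hcone : cut (cut b k ∪ ⋃ l ∈ L, f (n l) l) (n l).1 ∈ cone b k A := by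
    refine ⟨?_, ?_⟩
    · intro q hq
      constructor
      · rintro ⟨h | h, _⟩
        · exact h.1
        · exact absurd (hSA q h).2 (not_le.mpr hq)
      · intro h
        exact ⟨Or.inl ⟨h, hq⟩, hq.trans_le (n l).2⟩
    · rintro q ⟨h | h, _⟩ hkq
      · exact absurd h.2 (not_lt.mpr hkq)
      · exact (hSA q h).1
  obtain ⟨j, hj⟩ := hfg3 (n l) l (cut (cut b k ∪ ⋃ l ∈ L, f (n l) l) (n l).1)
    (fun q hq => hq.2) hcone i hil.le
  refine ⟨j, hj ⟨?_, ?_⟩⟩
  · intro q hq
    rw [← hn] at hq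
    constructor
    · intro h
      by_cases hql : q < (n l).1
      · exact Or.inl ⟨h, hql⟩
      · refine Or.inr ?_
        rcases h with h | h
        · exact absurd ((h.2).trans_le (n l).2) hql
        · simp only [mem_iUnion] at h
          obtain ⟨l', hl', h⟩ := h
          have h3 := hP l' q h
          have : l' = l := by
            rcases lt_trichotomy l' l with h4 | h4 | h4
            · have := hn_mono (l'+1) l h4
              omega
            · exact h4
            · have := hn_mono (l+1) l' h4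
              omega
          rw [← this]
          exact h
    · rintro (h | h)
      · exact h.1
      · exact Or.inr (mem_biUnion hlL h)
  · intro q hq hkq
    rcases hq with h | h
    · exact absurd (h.2) (not_lt.mpr ((g (n l) l).2.trans hkq))
    · exact (hSA q h).1

section
variable {X : Type*} [TopologicalSpace X]

/-- `x` restricted to `S` converges to `ζ` -/
def Tends (x : ℕ → X) (S : Set ℕ) (ζ : X) : Prop :=
  ∀ O, IsOpen O → ζ ∈ O → {q | q ∈ S ∧ x q ∉ O}.Finite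

lemma Tends.mono {x : ℕ → X} {S S' : Set ℕ} {ζ : X} (h : Tends x S ζ) (hS : S' ⊆ S) :
    Tends x S' ζ := fun O hO hζ => (h O hO hζ).subset fun _ hq => ⟨hS hq.1, hq.2⟩

/-- closed sets are realised inside a positive set -/
lemma realise_closed [SecondCountableTopology X] [FirstCountableTopology X]
    (I : Set (Set ℕ)) (C : ℕ → ℕ → ℕ → Set (Set ℕ)) (hI : Repr I C)
    (hdown : ∀ A ∈ I, ∀ B ⊆ A, B ∈ I) (hun : ∀ A ∈ I, ∀ B ∈ I, A ∪ B ∈ I)
    (hfin : ∀ A : Set ℕ, A.Finite → A ∈ I) (A : Set ℕ) (hAI : A ∉ I) (F : Set X)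
    (hF : F.Nonempty) :
    ∃ x : ℕ → X, (∀ q, x q ∈ F) ∧ ∀ ζ ∈ F, ∃ S ⊆ A, S ∉ I ∧ Tends x S ζ := by
  classical
  obtain ⟨P, hP1, hP2, hP3⟩ := pieces I C hI hdown hun hfin A hAI
  haveI : Nonempty F := hF.to_subtype
  let c : ℕ → X := fun l => (TopologicalSpace.denseSeq F (Nat.unpair l).1 : X)
  have hcF : ∀ l, c l ∈ F := fun l => (TopologicalSpace.denseSeq F (Nat.unpair l).1).2
  have hfreq : ∀ ζ ∈ F, ∀ O, IsOpen O → ζ ∈ O → ∃ᶠ l in atTop, c l ∈ O := by
    intro ζ hζ O hO hζO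
    obtain ⟨z, hz1, a, rfl⟩ := (TopologicalSpace.denseRange_denseSeq F).inter_open_nonempty
      (Subtype.val ⁻¹' O) (hO.preimage continuous_subtype_val) ⟨⟨ζ, hζ⟩, hζO⟩
    rw [frequently_atTop]
    intro N
    refine ⟨Nat.pair a N, Nat.right_le_pair a N, ?_⟩
    show (TopologicalSpace.denseSeq F (Nat.unpair (Nat.pair a N)).1 : X) ∈ O
    rw [Nat.unpair_pair]
    exact hz1
  let x : ℕ → X := fun q => if h : ∃ l, q ∈ P l then c h.choose else c 0
  have hx : ∀ l q, q ∈ P l → x q = c l := by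
    intro l q hq
    have h : ∃ l, q ∈ P l := ⟨l, hq⟩
    simp only [x, dif_pos h]
    rw [hP2 _ _ q h.choose_spec hq]
  refine ⟨x, ?_, ?_⟩
  · intro q
    by_cases h : ∃ l, q ∈ P l
    · obtain ⟨l, hl⟩ := h
      rw [hx l q hl]
      exact hcF l
    · simp only [x, dif_neg h]
      exact hcF 0
  · intro ζ hζ
    obtain ⟨W, hW⟩ := (𝓝 ζ).exists_antitone_basis
    have hfr : ∀ n, ∃ᶠ l in atTop, c l ∈ W n := by
      intro n
      obtain ⟨O, hO1, hO2, hO3⟩ := mem_nhds_iff.mp (hW.1.mem_of_mem (i := n) trivial)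
      exact (hfreq ζ hζ O hO2 hO3).mono fun l hl => hO1 hl
    obtain ⟨φ, hφ, hφW⟩ := extraction_forall_of_frequently hfr
    refine ⟨⋃ l ∈ range φ, P l, ?_, hP3 _ (infinite_range_of_injective hφ.injective), ?_⟩
    · intro q hq
      simp only [mem_iUnion] at hq
      obtain ⟨l, _, hq⟩ := hq
      exact (hP1 l).2 hq
    · intro O hO hζO
      obtain ⟨n0, _, hn0⟩ := hW.1.mem_iff.mp (hO.mem_nhds hζO)
      refine ((finite_Iio n0).biUnion fun n _ => (hP1 (φ n)).1).subset ?_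
      rintro q ⟨hq, hqO⟩
      simp only [mem_iUnion, mem_range] at hq
      obtain ⟨_, ⟨n, rfl⟩, hq⟩ := hq
      simp only [mem_iUnion, mem_Iio, exists_prop]
      refine ⟨n, ?_, hq⟩
      by_contra hn
      apply hqO
      rw [hx _ q hq]
      exact hn0 (hW.2 (not_lt.mp hn) (hφW n))

end

end Pool.Agent.H84R4
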