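import Mathlib
import Pool.Agent.H84R4.Cone
import Pool.Agent.H84R4.Pieces

set_option autoImplicit false

open Filter Topology Set

namespace Pool.Agent.H84R4

section
variable {X : Type*} [MetricSpace X]

/-- the set of `I`-limit points of `x` -/
def LimSet (I : Set (Set ℕ)) (x : ℕ → X) : Set X := {ζ | ∃ S, S ∉ I ∧ Tends x S ζ}

/-- `A` is covered by an `Fσ` subset of `L` -/
def Cov (L A : Set X) : Prop := ∃ F : ℕ → Set X, (∀ n, IsClosed (F n)) ∧ A ⊆ ⋃ n, F n ∧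
  (⋃ n, F n) ⊆ L

lemma Cov.mono {L A B : Set X} (h : Cov L A) (hB : B ⊆ A) : Cov L B := by
  obtain ⟨F, h1, h2, h3⟩ := h
  exact ⟨F, h1, hB.trans h2, h3⟩

lemma cov_closed {L A : Set X} (hA : IsClosed A) (h : A ⊆ L) : Cov L A :=
  ⟨fun _ => A, fun _ => hA, by rw [iUnion_const], by rw [iUnion_const]; exact h⟩

lemma cov_iUnion {L : Set X} {ι : Type*} [Countable ι] (A : ι → Set X) (h : ∀ i, Cov L (A i)) :
    Cov L (⋃ i, A i) := by
  rcases isEmpty_or_nonempty ι with he | he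
  · rw [iUnion_of_empty]
    exact cov_closed isClosed_empty (empty_subset _)
  · obtain ⟨e, he⟩ := exists_surjective_nat ι
    choose F h1 h2 h3 using h
    refine ⟨fun n => F (e (Nat.unpair n).1) (Nat.unpair n).2, fun n => h1 _ _, ?_, ?_⟩
    · refine iUnion_subset fun i => ?_
      obtain ⟨a, rfl⟩ := he i
      intro z hz
      obtain ⟨b, hb⟩ := mem_iUnion.mp (h2 _ hz)
      refine mem_iUnion.mpr ⟨Nat.pair a b, ?_⟩
      rw [Nat.unpair_pair]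
      exact hb
    · refine iUnion_subset fun n => ?_
      exact (subset_iUnion _ _).trans (h3 _)

lemma fin_conv (I : Set (Set ℕ)) (hdown : ∀ A ∈ I, ∀ B ⊆ A, B ∈ I)
    (hun : ∀ A ∈ I, ∀ B ∈ I, A ∪ B ∈ I) (hfin : ∀ A : Set ℕ, A.Finite → A ∈ I)
    (x : ℕ → X) (T : Set ℕ) (Q : Finset X) (hQne : Q.Nonempty) (hQ : ∀ z ∈ Q, z ∉ LimSet I x)
    (hT : ∀ s : ℕ, {q | q ∈ T ∧ ¬ ∃ z ∈ Q, dist (x q) z < 1 / ((s : ℝ) + 1)}.Finite) : T ∈ I := by
  have h1 : ∀ z ∈ Q, {q | q ∈ T ∧ ∀ z' ∈ Q, dist (x q) z ≤ dist (x q) z'} ∈ I := by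
    intro z hz
    by_contra hcon
    refine hQ z hz ⟨_, hcon, fun O hO hzO => ?_⟩
    obtain ⟨ε, hε, hball⟩ := Metric.isOpen_iff.mp hO z hzO
    obtain ⟨s, hs⟩ := exists_nat_one_div_lt hε
    refine (hT s).subset ?_
    rintro q ⟨⟨hq1, hq2⟩, hq3⟩
    refine ⟨hq1, ?_⟩
    rintro ⟨z', hz', hd⟩
    apply hq3
    apply hball
    rw [Metric.mem_ball]
    exact ((hq2 z' hz').trans_lt hd).trans hs
  have h2 : ∀ R : Finset X, (∀ z ∈ R, z ∈ Q) →
      (⋃ z ∈ R, {q | q ∈ T ∧ ∀ z' ∈ Q, dist (x q) z ≤ dist (x q) z'}) ∈ I := by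
    classical
    intro R
    induction R using Finset.induction_on with
    | empty => intro _; simpa using hfin ∅ finite_empty
    | insert a R _ ih =>
      intro h
      rw [Finset.set_biUnion_insert]
      exact hun _ (h1 a (h a (Finset.mem_insert_self _ _))) _
        (ih fun z hz => h z (Finset.mem_insert_of_mem hz))
  refine hdown _ (h2 Q fun z hz => hz) T ?_
  intro q hq
  obtain ⟨z, hz, hmin⟩ := Q.exists_min_image (fun z => dist (x q) z) hQne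
  simp only [mem_iUnion]
  exact ⟨z, hz, hq, hmin⟩

/-- near `η`, the `m`-th piece is comeagre below `(b, k, V)` -/
def FF (x : ℕ → X) (C : ℕ → ℕ → ℕ → Set (Set ℕ)) (m : ℕ) (b : Set ℕ) (k : ℕ) (V : Set X)
    (η : X) : Prop :=
  η ∈ V ∧ ∀ i b' k' V', k ≤ k' → b' ∈ cone b k (x ⁻¹' V) → IsOpen V' → η ∈ V' → V' ⊆ V →
    ∃ b'' k'' W j, k' ≤ k'' ∧ b'' ∈ cone b' k' (x ⁻¹' V') ∧ IsOpen W ∧ η ∈ W ∧ W ⊆ V' ∧
      cone b'' k'' (x ⁻¹' W) ⊆ C m i j

lemma exists_FF [SecondCountableTopology X] (I : Set (Set ℕ)) (C : ℕ → ℕ → ℕ → Set (Set ℕ))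
    (hI : Repr I C)
    (hdown : ∀ A ∈ I, ∀ B ⊆ A, B ∈ I) (hun : ∀ A ∈ I, ∀ B ∈ I, A ∪ B ∈ I)
    (x : ℕ → X) (η : X) (hη : η ∈ LimSet I x) :
    ∃ (m : ℕ) (t : Finset ℕ) (n : ℕ) (V : TopologicalSpace.countableBasis X),
      FF x C m t n V.1 η := by
  obtain ⟨A, hA, hAη⟩ := hη
  let U : ℕ → Set ℕ := fun s => x ⁻¹' Metric.ball η (1 / ((s : ℝ) + 1))
  have hUanti : Antitone U := by
    intro s s' h
    apply preimage_mono
    apply Metric.ball_subset_ball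
    apply one_div_le_one_div_of_le
    · positivity
    · have : (s : ℝ) ≤ s' := by exact_mod_cast h
      linarith
  have hUs : ∀ s, (A \ U s).Finite := by
    intro s
    refine (hAη _ Metric.isOpen_ball (Metric.mem_ball_self (by positivity :
      (0 : ℝ) < 1 / ((s : ℝ) + 1)))).subset ?_
    rintro q ⟨h1, h2⟩
    exact ⟨h1, h2⟩
  obtain ⟨m, b, k, s, hm⟩ := positive_cone I C hI hdown hun U hUanti A hUs hA
  obtain ⟨V, hV1, hV2, hV3⟩ := (TopologicalSpace.isBasis_countableBasis X).exists_subset_of_mem_open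
    (Metric.mem_ball_self (x := η) (by positivity : (0 : ℝ) < 1 / ((s : ℝ) + 1)))
    Metric.isOpen_ball
  have hfinb : (cut b k).Finite := (finite_Iio k).subset fun q hq => hq.2
  refine ⟨m, hfinb.toFinset, k, ⟨V, hV1⟩, hV2, ?_⟩
  intro i b' k' V' h1 h2 h3 h4 h5
  rw [Finite.coe_toFinset] at h2
  obtain ⟨ε, hε, hball⟩ := Metric.isOpen_iff.mp h3 η h4
  obtain ⟨s1, hs1⟩ := exists_nat_one_div_lt hε
  have hs1' : U (max s s1) ⊆ x ⁻¹' V' := by
    refine (hUanti (le_max_right s s1)).trans (preimage_mono ?_)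
    exact (Metric.ball_subset_ball hs1.le).trans hball
  have hb' : b' ∈ cone b k (U s) :=
    ⟨h2.1.trans (agree_cut b k), fun q hq hkq => hV3 (h2.2 q hq hkq)⟩
  obtain ⟨b'', k'', s'', j, g1, g2, g3, g4⟩ := hm i b' k' (max s s1) h1 (le_max_left _ _) hb'
  refine ⟨b'', k'', Metric.ball η (1 / ((s'' : ℝ) + 1)), j, g1,
    ⟨g3.1, fun q hq hkq => hs1' (g3.2 q hq hkq)⟩, Metric.isOpen_ball,
    Metric.mem_ball_self (by positivity), ?_, g4⟩
  refine (Metric.ball_subset_ball ?_).trans hball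
  refine le_trans ?_ hs1.le
  apply one_div_le_one_div_of_le
  · positivity
  · have : (s1 : ℝ) ≤ s'' := by exact_mod_cast (le_max_right s s1).trans g2
    linarith

/-- conditions of the second forcing -/
structure Cd (X : Type*) where
  t : Set ℕ
  u : Set ℕ
  n : ℕ
  O : Set X
  W : Set X
  Q : Finset X

/-- validity of a condition -/
structure Cd.Valid (x : ℕ → X) (Qs G : Set X) (ts : Set ℕ) (ns : ℕ) (Vs : Set X) (p : Cd X) :
    Prop where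
  Oo : IsOpen p.O
  Wo : IsOpen p.W
  Qs : ∀ z ∈ p.Q, z ∈ Qs
  QO : ∀ z ∈ p.Q, z ∈ p.O
  WG : (p.W ∩ G).Nonempty
  WO : p.W ⊆ p.O
  ut : ∀ q ∈ p.u, q ∈ p.t
  tn : ∀ q ∈ p.t, q < p.n
  nn : ns ≤ p.n
  us : p.u ∈ cone ts ns (x ⁻¹' Vs)
  WV : p.W ⊆ Vs

/-- the order of the second forcing -/
structure Cd.Le (x : ℕ → X) (p' p : Cd X) : Prop where
  n : p.n ≤ p'.n
  t : p'.t ∈ cone p.t p.n (x ⁻¹' p.O)
  u : p'.u ∈ cone p.u p.n (x ⁻¹' p.W)
  O : p'.O ⊆ p.O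
  W : p'.W ⊆ p.W
  Q : p.Q ⊆ p'.Q

lemma Cd.Le.refl' {x : ℕ → X} {Qs G : Set X} {ts : Set ℕ} {ns : ℕ} {Vs : Set X} {p : Cd X}
    (hp : p.Valid x Qs G ts ns Vs) : Cd.Le x p p where
  n := le_rfl
  t := ⟨Agree.refl _ _, fun q hq hkq => absurd (hp.tn q hq) (not_lt.mpr hkq)⟩
  u := ⟨Agree.refl _ _, fun q hq hkq => absurd (hp.tn q (hp.ut q hq)) (not_lt.mpr hkq)⟩
  O := subset_rfl
  W := subset_rfl
  Q := subset_rfl

lemma Cd.Le.trans' {x : ℕ → X} {p q r : Cd X} (h : Cd.Le x p q) (h' : Cd.Le x q r) :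
    Cd.Le x p r where
  n := h'.n.trans h.n
  t := cone_mono h'.n h'.t (preimage_mono h'.O) h.t
  u := cone_mono h'.n h'.u (preimage_mono h'.W) h.u
  O := h.O.trans h'.O
  W := h.W.trans h'.W
  Q := h'.Q.trans h.Q

/-- no cone below `p` is contained in `E` -/
def NoC (x : ℕ → X) (Qs G : Set X) (ts : Set ℕ) (ns : ℕ) (Vs : Set X) (E : Set (Set ℕ))
    (p : Cd X) : Prop :=
  ∀ p' : Cd X, p'.Valid x Qs G ts ns Vs → Cd.Le x p' p → ¬ cone p'.t p'.n (x ⁻¹' p'.O) ⊆ E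

end

end Pool.Agent.H84R4
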