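import Mathlib
import Pool.Agent.H84R4.Fsig

set_option autoImplicit false

open Filter Topology Set

namespace Pool.Agent.H84R4

section
variable {X : Type*} [MetricSpace X]

/-- density of the decision of `⋂ i ⋃ j C m i j` -/
lemma dense_decide (I : Set (Set ℕ)) (C : ℕ → ℕ → ℕ → Set (Set ℕ)) (hI : Repr I C)
    (hdown : ∀ A ∈ I, ∀ B ⊆ A, B ∈ I) (hun : ∀ A ∈ I, ∀ B ∈ I, A ∪ B ∈ I)
    (hfin : ∀ A : Set ℕ, A.Finite → A ∈ I) (x : ℕ → X) (G : Set X)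
    (ts : Set ℕ) (ns : ℕ) (Vs : Set X)
    (hG : ∀ W, IsOpen W → (W ∩ G).Nonempty → (W ∩ (closure G \ LimSet I x)).Nonempty)
    (m : ℕ) (p : Cd X) (hp : p.Valid x (closure G \ LimSet I x) G ts ns Vs) :
    ∃ p' : Cd X, p'.Valid x (closure G \ LimSet I x) G ts ns Vs ∧ Cd.Le x p' p ∧
      ∃ i, ∀ j, NoC x (closure G \ LimSet I x) G ts ns Vs (C m i j) p' := by
  classical
  by_contra hcon
  push Not at hcon
  -- add a point of `Q` in `W`
  obtain ⟨q0, hq0W, hq0⟩ := hG p.W hp.Wo hp.WG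
  let Q1 : Finset X := insert q0 p.Q
  have hQ1 : ∀ z ∈ Q1, z ∈ closure G \ LimSet I x := by
    intro z hz
    rcases Finset.mem_insert.mp hz with rfl | hz
    · exact hq0
    · exact hp.Qs z hz
  have hQ1O : ∀ z ∈ Q1, z ∈ p.O := by
    intro z hz
    rcases Finset.mem_insert.mp hz with rfl | hz
    · exact hp.WO hq0W
    · exact hp.QO z hz
  -- the small forcing
  let R := {r : Set ℕ × ℕ × Set X // p.n ≤ r.2.1 ∧ r.1 ∈ cone p.t p.n (x ⁻¹' p.O) ∧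
    IsOpen r.2.2 ∧ r.2.2 ⊆ p.O ∧ (∀ z ∈ Q1, z ∈ r.2.2) ∧ ∀ q ∈ r.1, q < r.2.1}
  let le : R → R → Prop := fun r' r => r.1.2.1 ≤ r'.1.2.1 ∧
    r'.1.1 ∈ cone r.1.1 r.1.2.1 (x ⁻¹' r.1.2.2) ∧ r'.1.2.2 ⊆ r.1.2.2
  have hrefl : ∀ r : R, le r r := fun r =>
    ⟨le_rfl, ⟨Agree.refl _ _, fun q hq hkq => absurd (r.2.2.2.2.2.2 q hq) (not_lt.mpr hkq)⟩,
      subset_rfl⟩
  have htrans : ∀ p q r : R, le p q → le q r → le p r := by
    rintro p q r ⟨h1, h2, h3⟩ ⟨h4, h5, h6⟩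
    exact ⟨h4.trans h1, cone_mono h4 h5 (preimage_mono h6) h2, h3.trans h6⟩
  let D : ℕ ⊕ ℕ ⊕ ℕ → Set R := fun d =>
    match d with
    | Sum.inl i => {r | ∃ j, cone r.1.1 r.1.2.1 (x ⁻¹' r.1.2.2) ⊆ C m i j}
    | Sum.inr (Sum.inl s) => {r | ∀ z ∈ r.1.2.2, ∃ z' ∈ Q1, dist z z' < 1 / ((s : ℝ) + 1)}
    | Sum.inr (Sum.inr N) => {r | N ≤ r.1.2.1}
  have hD : ∀ d r, ∃ r', le r' r ∧ r' ∈ D d := by
    rintro (i | s | N) ⟨⟨t', n', O'⟩, h1, h2, h3, h4, h5, h6⟩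
    · -- the associated condition
      simp only at h1 h2 h3 h4 h5 h6
      have hval : Cd.Valid x (closure G \ LimSet I x) G ts ns Vs
          ⟨t', p.u, n', O', p.W ∩ O', Q1⟩ := by
        refine ⟨h3, hp.Wo.inter h3, hQ1, h5, ?_, inter_subset_right, ?_, h6, hp.nn.trans h1,
          hp.us, inter_subset_left.trans hp.WV⟩
        · have := mem_closure_iff.mp hq0.1 (p.W ∩ O') (hp.Wo.inter h3)
            ⟨hq0W, h5 q0 (Finset.mem_insert_self _ _)⟩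
          exact this
        · intro q hq
          have h7 := hp.ut q hq
          exact (h2.1 q (hp.tn q h7)).mpr h7
      have hle : Cd.Le x ⟨t', p.u, n', O', p.W ∩ O', Q1⟩ p := by
        refine ⟨h1, h2, ?_, h4, inter_subset_left, Finset.subset_insert _ _⟩
        exact (Cd.Le.refl' hp).u
      obtain ⟨j, hj⟩ := hcon _ hval hle i
      unfold NoC at hj
      push Not at hj
      obtain ⟨p'', hv'', hle'', hc''⟩ := hj
      refine ⟨⟨⟨p''.t, p''.n, p''.O⟩, h1.trans hle''.n, ?_, hv''.Oo, hle''.O.trans h4,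
        fun z hz => hv''.QO z (hle''.Q hz), hv''.tn⟩, ⟨hle''.n, hle''.t, hle''.O⟩, j, hc''⟩
      exact cone_mono h1 h2 (preimage_mono h4) hle''.t
    · simp only at h1 h2 h3 h4 h5 h6
      have hopen : IsOpen (⋃ z' ∈ Q1, Metric.ball z' (1 / ((s : ℝ) + 1))) :=
        isOpen_biUnion fun _ _ => Metric.isOpen_ball
      refine ⟨⟨⟨t', n', O' ∩ ⋃ z' ∈ Q1, Metric.ball z' (1 / ((s : ℝ) + 1))⟩, h1, h2,
        h3.inter hopen, inter_subset_left.trans h4, ?_, h6⟩, ⟨le_rfl, ?_, inter_subset_left⟩, ?_⟩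
      · intro z hz
        refine ⟨h5 z hz, mem_biUnion hz (Metric.mem_ball_self (by positivity))⟩
      · exact ⟨Agree.refl _ _, fun q hq hkq => absurd (h6 q hq) (not_lt.mpr hkq)⟩
      · rintro z ⟨_, hz⟩
        simp only [mem_iUnion, Metric.mem_ball] at hz
        obtain ⟨z', hz', hd⟩ := hz
        exact ⟨z', hz', hd⟩
    · simp only at h1 h2 h3 h4 h5 h6
      refine ⟨⟨⟨t', max N n', O'⟩, h1.trans (le_max_right _ _), h2, h3, h4, h5,
        fun q hq => (h6 q hq).trans_le (le_max_right _ _)⟩, ⟨le_max_right _ _, ?_, subset_rfl⟩, ?_⟩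
      · exact ⟨Agree.refl _ _, fun q hq hkq => absurd (h6 q hq) (not_lt.mpr hkq)⟩
      · exact le_max_left N n'
  obtain ⟨s, hs0, hs1, hs2⟩ := generic le hrefl htrans D hD
    ⟨⟨p.t, p.n, p.O⟩, le_rfl, (Cd.Le.refl' hp).t, hp.Oo, subset_rfl, hQ1O, hp.tn⟩
  obtain ⟨T, hT⟩ := exists_lim (fun r => (s r).1.1) (fun r => (s r).1.2.1)
    (fun r => x ⁻¹' (s r).1.2.2)
    (fun r r' hrr => ⟨(hs1 r r' hrr).1, (hs1 r r' hrr).2.1⟩)
    (fun N => by
      obtain ⟨r, _, hr⟩ := hs2 (Sum.inr (Sum.inr N)) 0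
      exact ⟨r, hr⟩)
  have hTI : T ∉ I := by
    refine (hI.2 T).mpr ⟨m, fun i => ?_⟩
    obtain ⟨r, _, j, hj⟩ := hs2 (Sum.inl i) 0
    exact ⟨j, hj (hT r)⟩
  apply hTI
  refine fin_conv I hdown hun hfin x T Q1 ⟨q0, Finset.mem_insert_self _ _⟩
    (fun z hz => (hQ1 z hz).2) ?_
  intro s'
  obtain ⟨r, _, hr⟩ := hs2 (Sum.inr (Sum.inl s')) 0
  refine (finite_Iio (s r).1.2.1).subset ?_
  rintro q ⟨hqT, hq⟩
  by_contra hcon2
  apply hq
  exact hr _ ((hT r).2 q hqT (not_lt.mp hcon2))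

/-- the key step: below any nonempty `G` in which the complement of the limit set is dense there
cannot be a uniform comeagreness witness -/
lemma no_G (I : Set (Set ℕ)) (C : ℕ → ℕ → ℕ → Set (Set ℕ)) (hI : Repr I C)
    (hdown : ∀ A ∈ I, ∀ B ⊆ A, B ∈ I) (hun : ∀ A ∈ I, ∀ B ∈ I, A ∪ B ∈ I)
    (hfin : ∀ A : Set ℕ, A.Finite → A ∈ I) (x : ℕ → X) (G : Set X) (hGne : G.Nonempty)
    (hG : ∀ W, IsOpen W → (W ∩ G).Nonempty → (W ∩ (closure G \ LimSet I x)).Nonempty)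
    (ms : ℕ) (ts : Set ℕ) (ns : ℕ) (Vs : Set X) (hVs : IsOpen Vs)
    (hF : ∀ η ∈ G, FF x C ms ts ns Vs η) : False := by
  classical
  let Qs : Set X := closure G \ LimSet I x
  let P := {p : Cd X // p.Valid x Qs G ts ns Vs}
  let le : P → P → Prop := fun p' p => Cd.Le x p'.1 p.1
  have hrefl : ∀ p : P, le p p := fun p => Cd.Le.refl' p.2
  have htrans : ∀ p q r : P, le p q → le q r → le p r := fun p q r h h' => Cd.Le.trans' h h'
  let D : ℕ ⊕ ℕ ⊕ (ℕ × ℕ × ℕ) ⊕ ℕ → Set P := fun d =>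
    match d with
    | Sum.inl i => {p | ∃ j, cone p.1.u p.1.n (x ⁻¹' p.1.W) ⊆ C ms i j}
    | Sum.inr (Sum.inl m) => {p | ∃ i, ∀ j, NoC x Qs G ts ns Vs (C m i j) p.1}
    | Sum.inr (Sum.inr (Sum.inl (m, i, j))) =>
        {p | NoC x Qs G ts ns Vs (C m i j) p.1 → ∀ T, Agree p.1.n T p.1.t → T ∉ C m i j}
    | Sum.inr (Sum.inr (Sum.inr N)) => {p | N ≤ p.1.n}
  have hD : ∀ d p, ∃ p', le p' p ∧ p' ∈ D d := by
    rintro (i | m | ⟨m, i, j⟩ | N) ⟨p, hp⟩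
    · -- meet the piece `ms`
      obtain ⟨η, hηW, hηG⟩ := hp.WG
      obtain ⟨b, k, W, j, h1, h2, h3, h4, h5, h6⟩ := (hF η hηG).2 i p.u p.n p.W hp.nn hp.us hp.Wo
        hηW hp.WV
      have hval : Cd.Valid x Qs G ts ns Vs
          ⟨{q | q < k ∧ (q ∈ p.t ∨ (q ∈ b ∧ p.n ≤ q))}, cut b k, k, p.O, W, p.Q⟩ := by
        refine ⟨hp.Oo, h3, hp.Qs, hp.QO, ⟨η, h4, hηG⟩, h5.trans hp.WO, ?_, fun q hq => hq.1,
          hp.nn.trans h1, ?_, h5.trans hp.WV⟩
        · rintro q ⟨hq1, hq2⟩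
          refine ⟨hq2, ?_⟩
          by_cases hqn : q < p.n
          · exact Or.inl (hp.ut q ((h2.1 q hqn).mp hq1))
          · exact Or.inr ⟨hq1, not_lt.mp hqn⟩
        · exact cone_mono hp.nn hp.us (preimage_mono hp.WV) (cut_mem_cone h1 h2)
      refine ⟨⟨_, hval⟩, ⟨h1, ⟨?_, ?_⟩, cut_mem_cone h1 h2, subset_rfl, h5, subset_rfl⟩, j, ?_⟩
      · intro q hq
        constructor
        · rintro ⟨_, h | h⟩
          · exact h
          · exact absurd h.2 (not_le.mpr hq)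
        · intro h
          exact ⟨hq.trans_le h1, Or.inl h⟩
      · rintro q ⟨_, h | h⟩ hkq
        · exact absurd (hp.tn q h) (not_lt.mpr hkq)
        · exact hp.WO (h2.2 q h.1 hkq)
      · rintro T ⟨hT1, hT2⟩
        exact h6 ⟨hT1.trans (agree_cut b k), hT2⟩
    · obtain ⟨p', hv, hle, i, hi⟩ := dense_decide I C hI hdown hun hfin x G ts ns Vs hG m p hp
      exact ⟨⟨p', hv⟩, hle, i, hi⟩
    · by_cases hno : NoC x Qs G ts ns Vs (C m i j) p
      · have h1 := hno p hp (Cd.Le.refl' hp)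
        rw [not_subset] at h1
        obtain ⟨T, hT1, hT2⟩ := h1
        obtain ⟨l, hl⟩ := hI.1 m i j T hT2
        have hval : Cd.Valid x Qs G ts ns Vs
            ⟨cut T (max l p.n), p.u, max l p.n, p.O, p.W, p.Q⟩ := by
          refine ⟨hp.Oo, hp.Wo, hp.Qs, hp.QO, hp.WG, hp.WO, ?_, fun q hq => hq.2,
            hp.nn.trans (le_max_right _ _), hp.us, hp.WV⟩
          intro q hq
          have h2 := hp.ut q hq
          have h3 := hp.tn q h2
          exact ⟨(hT1.1 q h3).mpr h2, h3.trans_le (le_max_right _ _)⟩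
        refine ⟨⟨_, hval⟩, ⟨le_max_right _ _, cut_mem_cone (le_max_right _ _) hT1,
          (Cd.Le.refl' hp).u, subset_rfl, subset_rfl, subset_rfl⟩, ?_⟩
        intro _ T' hT'
        exact hl T' ((hT'.trans (agree_cut T _)).mono (le_max_left _ _))
      · exact ⟨⟨p, hp⟩, Cd.Le.refl' hp, fun h => absurd h hno⟩
    · have hval : Cd.Valid x Qs G ts ns Vs ⟨p.t, p.u, max N p.n, p.O, p.W, p.Q⟩ :=
        ⟨hp.Oo, hp.Wo, hp.Qs, hp.QO, hp.WG, hp.WO, hp.ut,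
          fun q hq => (hp.tn q hq).trans_le (le_max_right _ _), hp.nn.trans (le_max_right _ _),
          hp.us, hp.WV⟩
      refine ⟨⟨_, hval⟩, ⟨le_max_right _ _, (Cd.Le.refl' hp).t, (Cd.Le.refl' hp).u, subset_rfl,
        subset_rfl, subset_rfl⟩, ?_⟩
      exact le_max_left N p.n
  have hval0 : Cd.Valid x Qs G ts ns Vs ⟨cut ts ns, cut ts ns, ns, Vs, Vs, ∅⟩ := by
    refine ⟨hVs, hVs, fun z hz => absurd hz (Finset.notMem_empty z),
      fun z hz => absurd hz (Finset.notMem_empty z), ?_, subset_rfl, fun q hq => hq,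
      fun q hq => hq.2, le_rfl, cut_mem_cone_self, subset_rfl⟩
    obtain ⟨η, hη⟩ := hGne
    exact ⟨η, (hF η hη).1, hη⟩
  obtain ⟨s, hs0, hs1, hs2⟩ := generic le hrefl htrans D hD ⟨_, hval0⟩
  have hn : ∀ N, ∃ r, N ≤ (s r).1.n := by
    intro N
    obtain ⟨r, _, hr⟩ := hs2 (Sum.inr (Sum.inr (Sum.inr N))) 0
    exact ⟨r, hr⟩
  obtain ⟨T, hT⟩ := exists_lim (fun r => (s r).1.t) (fun r => (s r).1.n)
    (fun r => x ⁻¹' (s r).1.O)
    (fun r r' hrr => ⟨(hs1 r r' hrr).n, (hs1 r r' hrr).t⟩) hn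
  obtain ⟨S, hS⟩ := exists_lim (fun r => (s r).1.u) (fun r => (s r).1.n)
    (fun r => x ⁻¹' (s r).1.W)
    (fun r r' hrr => ⟨(hs1 r r' hrr).n, (hs1 r r' hrr).u⟩) hn
  have hST : S ⊆ T := by
    intro q hq
    obtain ⟨r, hr⟩ := hn (q + 1)
    have h1 : q < (s r).1.n := by omega
    exact ((hT r).1 q h1).mpr ((s r).2.ut q (((hS r).1 q h1).mp hq))
  have hSI : S ∉ I := by
    refine (hI.2 S).mpr ⟨ms, fun i => ?_⟩
    obtain ⟨r, _, j, hj⟩ := hs2 (Sum.inl i) 0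
    exact ⟨j, hj (hS r)⟩
  have hTI : T ∉ I := fun h => hSI (hdown T h S hST)
  obtain ⟨m, hm⟩ := (hI.2 T).mp hTI
  obtain ⟨r, _, i, hi⟩ := hs2 (Sum.inr (Sum.inl m)) 0
  obtain ⟨j, hj⟩ := hm i
  obtain ⟨r', hr', hE⟩ := hs2 (Sum.inr (Sum.inr (Sum.inl (m, i, j)))) r
  refine hE ?_ T (hT r').1 hj
  intro p' hv hle
  exact hi j p' hv (Cd.Le.trans' hle (hs1 r r' hr'))

/-- **Main theorem**: limit sets of `Π⁰₄` ideals are `Fσ`. -/
theorem limSet_cov [SecondCountableTopology X] (I : Set (Set ℕ))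
    (C : ℕ → ℕ → ℕ → Set (Set ℕ)) (hI : Repr I C)
    (hdown : ∀ A ∈ I, ∀ B ⊆ A, B ∈ I) (hun : ∀ A ∈ I, ∀ B ∈ I, A ∪ B ∈ I)
    (hfin : ∀ A : Set ℕ, A.Finite → A ∈ I) (x : ℕ → X) : Cov (LimSet I x) (LimSet I x) := by
  classical
  by_contra hcon
  have hcb := TopologicalSpace.countable_countableBasis X
  haveI : Countable (TopologicalSpace.countableBasis X) := hcb.to_subtype
  let A : ℕ × Finset ℕ × ℕ × TopologicalSpace.countableBasis X → Set X := fun c =>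
    {η | η ∈ LimSet I x ∧ FF x C c.1 c.2.1 c.2.2.1 c.2.2.2.1 η}
  have h1 : ∃ c, ¬ Cov (LimSet I x) (A c) := by
    by_contra h
    push Not at h
    apply hcon
    refine (cov_iUnion A h).mono ?_
    intro η hη
    obtain ⟨m, t, n, V, hV⟩ := exists_FF I C hI hdown hun x η hη
    exact mem_iUnion.mpr ⟨(m, t, n, V), hη, hV⟩
  obtain ⟨c, hc⟩ := h1
  let Bad : Set (TopologicalSpace.countableBasis X) := {V | Cov (LimSet I x) (V.1 ∩ A c)}
  let G : Set X := A c \ ⋃ V ∈ Bad, V.1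
  have hGne : G.Nonempty := by
    by_contra h
    rw [not_nonempty_iff_eq_empty] at h
    apply hc
    refine (cov_iUnion (fun V : Bad => V.1.1 ∩ A c) (fun V => V.2)).mono ?_
    intro η hη
    by_contra h2
    have : η ∈ G := by
      refine ⟨hη, fun h3 => h2 ?_⟩
      simp only [mem_iUnion] at h3
      obtain ⟨V, hV, hηV⟩ := h3
      exact mem_iUnion.mpr ⟨⟨V, hV⟩, hηV, hη⟩
    rw [h] at this
    exact this
  have hG0 : ∀ W, IsOpen W → (W ∩ G).Nonempty → ¬ closure (W ∩ G) ⊆ LimSet I x := by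
    rintro W hW ⟨η, hηW, hηG⟩ hsub
    obtain ⟨V, hV1, hV2, hV3⟩ :=
      (TopologicalSpace.isBasis_countableBasis X).exists_subset_of_mem_open hηW hW
    have hVBad : (⟨V, hV1⟩ : TopologicalSpace.countableBasis X) ∈ Bad := by
      have h2 : Cov (LimSet I x)
          (⋃ o : Option Bad, (o.elim (closure (W ∩ G)) (fun V => V.1.1 ∩ A c))) := by
        refine cov_iUnion _ ?_
        rintro (_ | V)
        · exact cov_closed isClosed_closure hsub
        · exact V.2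
      refine h2.mono ?_
      rintro z ⟨hzV, hzA⟩
      by_cases hz : z ∈ G
      · exact mem_iUnion.mpr ⟨none, subset_closure ⟨hV3 hzV, hz⟩⟩
      · have : z ∈ ⋃ V ∈ Bad, V.1 := by
          by_contra h3
          exact hz ⟨hzA, h3⟩
        simp only [mem_iUnion] at this
        obtain ⟨V', hV', hzV'⟩ := this
        exact mem_iUnion.mpr ⟨some ⟨V', hV'⟩, hzV', hzA⟩
    exact hηG.2 (mem_biUnion hVBad hV2)
  have hG : ∀ W, IsOpen W → (W ∩ G).Nonempty → (W ∩ (closure G \ LimSet I x)).Nonempty := by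
    rintro W hW ⟨η, hηW, hηG⟩
    obtain ⟨ε, hε, hball⟩ := Metric.isOpen_iff.mp hW η hηW
    have h2 := hG0 (Metric.ball η (ε / 2)) Metric.isOpen_ball
      ⟨η, Metric.mem_ball_self (by positivity), hηG⟩
    rw [not_subset] at h2
    obtain ⟨z, hz1, hz2⟩ := h2
    refine ⟨z, hball ?_, closure_mono inter_subset_right hz1, hz2⟩
    have h3 : z ∈ Metric.closedBall η (ε / 2) :=
      Metric.closure_ball_subset_closedBall (closure_mono inter_subset_left hz1)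
    rw [Metric.mem_closedBall] at h3
    rw [Metric.mem_ball]
    linarith
  exact no_G I C hI hdown hun hfin x G hGne hG c.1 c.2.1 c.2.2.1 c.2.2.2.1
    (TopologicalSpace.isOpen_of_mem_countableBasis c.2.2.2.2) (fun η hη => hη.1.2)

end

end Pool.Agent.H84R4
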