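import Mathlib
import Pool.Agent.H84R4.Main

set_option autoImplicit false

open Filter Topology Set

namespace Pool.Agent.H84R4

section
variable {X : Type*} [MetricSpace X]

lemma limSet_closed_realised [SecondCountableTopology X] (I : Set (Set ℕ))
    (C : ℕ → ℕ → ℕ → Set (Set ℕ)) (hI : Repr I C)
    (hdown : ∀ A ∈ I, ∀ B ⊆ A, B ∈ I) (hun : ∀ A ∈ I, ∀ B ∈ I, A ∪ B ∈ I)
    (hfin : ∀ A : Set ℕ, A.Finite → A ∈ I) (huniv : univ ∉ I) (F : Set X) (hF : F.Nonempty)
    (hFc : IsClosed F) : ∃ x : ℕ → X, LimSet I x = F := by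
  obtain ⟨x, hx1, hx2⟩ := realise_closed I C hI hdown hun hfin univ huniv F hF
  refine ⟨x, Subset.antisymm ?_ ?_⟩
  · rintro ζ ⟨S, hS, hζ⟩
    by_contra hcon
    apply hS
    apply hfin
    refine (hζ Fᶜ hFc.isOpen_compl hcon).subset fun q hq => ⟨hq, ?_⟩
    rw [mem_compl_iff, not_not]
    exact hx1 q
  · intro ζ hζ
    obtain ⟨S, _, hS, hS2⟩ := hx2 ζ hζ
    exact ⟨S, hS, hS2⟩

/-- if one limit set is not closed then every nonempty `Fσ` set is a limit set -/
lemma limSet_fsigma_realised [SecondCountableTopology X] (I : Set (Set ℕ))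
    (C : ℕ → ℕ → ℕ → Set (Set ℕ)) (hI : Repr I C)
    (hdown : ∀ A ∈ I, ∀ B ⊆ A, B ∈ I) (hun : ∀ A ∈ I, ∀ B ∈ I, A ∪ B ∈ I)
    (hfin : ∀ A : Set ℕ, A.Finite → A ∈ I) (y : ℕ → X) (η : X)
    (hη : η ∈ closure (LimSet I y)) (hη' : η ∉ LimSet I y)
    (F : ℕ → Set X) (hF : ∀ k, IsClosed (F k)) (hFne : ∀ k, (F k).Nonempty) :
    ∃ x : ℕ → X, LimSet I x = ⋃ k, F k := by
  classical
  have hclose : ∀ r : {r : ℝ // 0 < r}, ∃ ζ ∈ LimSet I y, dist ζ η < r.1 := by
    rintro ⟨r, hr⟩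
    obtain ⟨ζ, h1, h2⟩ := Metric.mem_closure_iff.mp hη r hr
    exact ⟨ζ, h1, by rw [dist_comm]; exact h2⟩
  choose f hf1 hf2 using hclose
  have hfpos : ∀ r, 0 < dist (f r) η := by
    intro r
    rw [dist_pos]
    rintro h
    exact hη' (h ▸ hf1 r)
  let ρ : ℕ → {r : ℝ // 0 < r} := fun k => Nat.rec ⟨1, one_pos⟩
    (fun _ r => ⟨dist (f r) η / 4, by have := hfpos r; positivity⟩) k
  have hρ : ∀ k, (ρ (k + 1)).1 = dist (f (ρ k)) η / 4 := fun k => rfl
  let ζ : ℕ → X := fun k => f (ρ k)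
  let d : ℕ → ℝ := fun k => dist (ζ k) η
  have hd0 : ∀ k, 0 < d k := fun k => hfpos _
  have hd : ∀ k, d (k + 1) < d k / 4 := by
    intro k
    have := hf2 (ρ (k + 1))
    rw [hρ] at this
    exact this
  have hd1 : ∀ k l, k ≤ l → d l ≤ d k := by
    intro k l h
    induction l, h using Nat.le_induction with
    | base => exact le_rfl
    | succ n _ ih =>
      have h1 := hd n
      have h2 := hd0 n
      linarith
  have hdgeom : ∀ k, d k ≤ d 0 * (1 / 4) ^ k := by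
    intro k
    induction k with
    | zero => simp
    | succ n ih =>
      have h1 := hd n
      rw [pow_succ]
      linarith
  have hdlim : ∀ ε > 0, ∃ k, d k < ε := by
    intro ε hε
    have h1 : Tendsto (fun k : ℕ => d 0 * (1 / 4 : ℝ) ^ k) atTop (𝓝 (d 0 * 0)) :=
      (tendsto_pow_atTop_nhds_zero_of_lt_one (by norm_num) (by norm_num)).const_mul _
    rw [mul_zero] at h1
    obtain ⟨k, hk⟩ := (h1.eventually (gt_mem_nhds hε)).exists
    exact ⟨k, (hdgeom k).trans_lt hk⟩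
  let B : ℕ → Set ℕ := fun k => {q | d k / 2 < dist (y q) η ∧ dist (y q) η < 2 * d k}
  have hBI : ∀ k, B k ∉ I := by
    intro k hB
    obtain ⟨S, hS, hSζ⟩ := hf1 (ρ k)
    apply hS
    have hopen : IsOpen {z : X | d k / 2 < dist z η ∧ dist z η < 2 * d k} :=
      (isOpen_lt continuous_const (continuous_id.dist continuous_const)).inter
        (isOpen_lt (continuous_id.dist continuous_const) continuous_const)
    have h1 : ζ k ∈ {z : X | d k / 2 < dist z η ∧ dist z η < 2 * d k} := by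
      have := hd0 k
      exact ⟨by show d k / 2 < d k; linarith, by show d k < 2 * d k; linarith⟩
    have h2 := hSζ _ hopen h1
    refine hdown _ (hun _ hB _ (hfin _ h2)) S ?_
    intro q hq
    by_cases hqB : q ∈ B k
    · exact Or.inl hqB
    · exact Or.inr ⟨hq, hqB⟩
  have hBdisj : ∀ k l q, q ∈ B k → q ∈ B l → k = l := by
    have key : ∀ k l q, k < l → q ∈ B k → q ∈ B l → False := by
      rintro k l q hkl ⟨h1, _⟩ ⟨_, h2⟩
      have h3 := hd1 (k + 1) l hkl
      have h4 := hd k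
      linarith
    intro k l q h1 h2
    rcases lt_trichotomy k l with h | h | h
    · exact (key k l q h h1 h2).elim
    · exact h
    · exact (key l k q h h2 h1).elim
  have hstar : ∀ S : Set ℕ, S ⊆ ⋃ k, B k → (∀ k, (S ∩ B k).Finite) → S ∈ I := by
    intro S hS1 hS2
    by_contra hSI
    apply hη'
    refine ⟨S, hSI, fun O hO hηO => ?_⟩
    obtain ⟨ε, hε, hball⟩ := Metric.isOpen_iff.mp hO η hηO
    obtain ⟨k0, hk0⟩ := hdlim (ε / 2) (by positivity)
    refine ((finite_Iio k0).biUnion fun k _ => hS2 k).subset ?_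
    rintro q ⟨hqS, hqO⟩
    obtain ⟨k, hk⟩ := mem_iUnion.mp (hS1 hqS)
    simp only [mem_iUnion, mem_Iio, exists_prop]
    refine ⟨k, ?_, hqS, hk⟩
    by_contra hkk
    apply hqO
    apply hball
    rw [Metric.mem_ball]
    have h1 := hd1 k0 k (not_lt.mp hkk)
    have h2 := hk.2
    linarith
  choose xk hxk1 hxk2 using fun k => realise_closed I C hI hdown hun hfin (B k) (hBI k) (F k)
    (hFne k)
  let x : ℕ → X := fun q => if h : ∃ k, q ∈ B k then xk h.choose q else (hFne 0).some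
  have hx : ∀ k q, q ∈ B k → x q = xk k q := by
    intro k q hq
    have h : ∃ k, q ∈ B k := ⟨k, hq⟩
    simp only [x, dif_pos h]
    rw [hBdisj _ _ q h.choose_spec hq]
  refine ⟨x, Subset.antisymm ?_ ?_⟩
  · rintro z ⟨S, hS, hz⟩
    by_contra hcon
    simp only [mem_iUnion, not_exists] at hcon
    have h1 : ∀ k, (S ∩ B k).Finite := by
      intro k
      refine (hz (F k)ᶜ (hF k).isOpen_compl (hcon k)).subset ?_
      rintro q ⟨h1, h2⟩
      refine ⟨h1, ?_⟩
      rw [mem_compl_iff, not_not, hx k q h2]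
      exact hxk1 k q
    have h2 : (S \ ⋃ k, B k).Finite := by
      refine (hz (F 0)ᶜ (hF 0).isOpen_compl (hcon 0)).subset ?_
      rintro q ⟨h1, h2⟩
      refine ⟨h1, ?_⟩
      have h3 : ¬ ∃ k, q ∈ B k := by
        rintro ⟨k, hk⟩
        exact h2 (mem_iUnion.mpr ⟨k, hk⟩)
      rw [mem_compl_iff, not_not]
      simp only [x, dif_neg h3]
      exact (hFne 0).some_mem
    have h3 : S ∩ ⋃ k, B k ∈ I := by
      refine hstar _ inter_subset_right fun k => (h1 k).subset ?_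
      rintro q ⟨⟨h4, _⟩, h5⟩
      exact ⟨h4, h5⟩
    apply hS
    refine hdown _ (hun _ h3 _ (hfin _ h2)) S ?_
    intro q hq
    by_cases hqB : q ∈ ⋃ k, B k
    · exact Or.inl ⟨hq, hqB⟩
    · exact Or.inr ⟨hq, hqB⟩
  · intro z hz
    obtain ⟨k, hk⟩ := mem_iUnion.mp hz
    obtain ⟨S, hSB, hSI, hSz⟩ := hxk2 k z hk
    refine ⟨S, hSI, fun O hO hzO => (hSz O hO hzO).subset ?_⟩
    rintro q ⟨h1, h2⟩
    rw [hx k q (hSB h1)] at h2
    exact ⟨h1, h2⟩

end

end Pool.Agent.H84R4
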